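import Mathlib
import Pool.Agent.Lib.MP_ff3579_an.X.Iface
import Pool.Agent.Lib.MP_ff3579_an.H78.CountE

/-!
Module CNT: if no prime power of the window is good, then the binomial coefficient
`C(N+2k, 4k)` is at most `(N+2k)^π(8k-3) · ∏ fac`.
-/

set_option autoImplicit false

open Finset

namespace Pool.Agent.Lib.MP_ff3579_an.X.H63

open Pool.Agent.Lib.MP_ff3579_an.X

theorem one_le_fac {N k p : ℕ} (hk : 1 ≤ k) (hp : 1 ≤ p) : 1 ≤ fac N k p := by
  unfold fac
  split_ifs
  · have : 0 < 4 * k * (1 + Nat.log p (2 * N)) := by positivity
    omega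
  · exact hp

theorem cnt : CntStatement := by
  classical
  intro N k hk hkN hwin
  by_contra hgood
  have hC0 : (N + 2 * k).choose (4 * k) ≠ 0 := (Nat.choose_pos (by omega)).ne'
  have hle : (N + 2 * k).choose (4 * k) ≤
      (N + 2 * k) ^ (Nat.primesBelow (8 * k - 2)).card * ∏ p ∈ badSet N k, fac N k p := by
    have hprod := Nat.prod_pow_factorization_choose (N + 2 * k) (4 * k) (by omega)
    have hpt : ∀ p ∈ range (N + 2 * k + 1),
        p ^ ((N + 2 * k).choose (4 * k)).factorization p ≤
          (if p ∈ Nat.primesBelow (8 * k - 2) then (N + 2 * k) else 1) *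
          (if p ∈ badSet N k then fac N k p else 1) := by
      intro p _
      have h1 : 1 ≤ (if p ∈ Nat.primesBelow (8 * k - 2) then (N + 2 * k) else 1) := by
        split_ifs <;> omega
      have h2 : 1 ≤ (if p ∈ badSet N k then fac N k p else 1) := by
        split_ifs with h
        · unfold badSet at h
          rw [mem_filter] at h
          exact one_le_fac hk h.2.1.one_lt.le
        · exact le_refl _
      rcases Nat.eq_zero_or_pos (((N + 2 * k).choose (4 * k)).factorization p) with hv | hv
      · rw [hv, pow_zero]
        exact Nat.mul_pos h1 h2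
      have hpp : p.Prime := by
        by_contra hnp
        rw [Nat.factorization_eq_zero_of_not_prime _ hnp] at hv
        omega
      rcases Nat.lt_or_ge p (8 * k - 2) with h8 | h8
      · rw [if_pos (Nat.mem_primesBelow.2 ⟨h8, hpp⟩)]
        exact (Nat.pow_factorization_choose_le (by omega)).trans (Nat.le_mul_of_pos_right _ h2)
      · have h8' : 8 * k ≤ p + 2 := by omega
        have hdvd : p ∣ (N + 2 * k).choose (4 * k) :=
          (hpp.dvd_iff_one_le_factorization hC0).2 hv
        obtain ⟨x, hx1, hx2, hx3⟩ := Pool.Agent.Lib.MP_ff3579_an.H78.exists_window_dvd (N := N)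
          hpp hk (by omega) h8' hdvd
        have hng : ¬ (2 * k * (2 + Nat.log p (2 * N)) ≤ p ∨ 4 * k * (1 + Nat.log p (2 * N)) <
            p ^ ((N + 2 * k).choose (4 * k)).factorization p) := fun h =>
          hgood ⟨p, x, _, hpp, h8', hx1, hx2, hv, hx3, h⟩
        rw [not_or, not_le, not_lt] at hng
        have hbad : p ∈ badSet N k := by
          unfold badSet
          rw [mem_filter, mem_range]
          refine ⟨?_, hpp, h8', hng.1⟩
          refine lt_of_lt_of_le hng.1 ?_
          apply Nat.mul_le_mul_left
          have := Nat.log_anti_left (n := 2 * N) (b := p) (c := 2) (by norm_num) hpp.two_le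
          omega
        rw [if_pos hbad]
        refine le_trans ?_ (Nat.le_mul_of_pos_left _ h1)
        unfold fac
        split_ifs with hsq
        · exact hng.2
        · rw [not_le] at hsq
          have hv1 : ((N + 2 * k).choose (4 * k)).factorization p < 2 :=
            (Nat.pow_lt_pow_iff_right hpp.one_lt).1 (lt_of_le_of_lt hng.2 hsq)
          have hv2 : ((N + 2 * k).choose (4 * k)).factorization p = 1 := by omega
          rw [hv2, pow_one]
    calc (N + 2 * k).choose (4 * k) = _ := hprod.symm
      _ ≤ _ := Finset.prod_le_prod' hpt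
      _ ≤ _ := by
        rw [Finset.prod_mul_distrib, Finset.prod_ite_mem, Finset.prod_ite_mem]
        apply Nat.mul_le_mul
        · rw [Finset.prod_const]
          exact Nat.pow_le_pow_right (by omega) (Finset.card_le_card Finset.inter_subset_right)
        · apply Finset.prod_le_prod_of_subset_of_one_le' Finset.inter_subset_right
          intro p hp _
          unfold badSet at hp
          rw [mem_filter] at hp
          exact one_le_fac hk hp.2.1.one_lt.le
  exact absurd hwin (not_lt.2 hle)

end Pool.Agent.Lib.MP_ff3579_an.X.H63
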