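import Mathlib
import Pool.Agent.Lib.MP_ff3579_an.X.Iface

/-!
Module PST: `ψ(n) - θ(n) ≤ 3.2 √n` for `n ≥ 25000`.
-/

set_option autoImplicit false

open Real

namespace Pool.Agent.Lib.MP_ff3579_an.X.H63

open Pool.Agent.Lib.MP_ff3579_an.X

theorem log4_le : Real.log 4 ≤ 1.387 := by
  have := Real.log_two_lt_d9
  rw [show (4 : ℝ) = 2 ^ 2 by norm_num, Real.log_pow]
  push_cast
  linarith

theorem psi_le_trivial {y : ℝ} (hy : 0 ≤ y) : Chebyshev.psi y ≤ 5.387 * y := by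
  refine (Chebyshev.psi_le_const_mul_self hy).trans ?_
  have := log4_le
  exact mul_le_mul_of_nonneg_right (by linarith) hy

theorem theta_le_trivial {y : ℝ} (hy : 0 ≤ y) : Chebyshev.theta y ≤ 1.387 * y :=
  (Chebyshev.theta_le_log4_mul_x hy).trans (mul_le_mul_of_nonneg_right log4_le hy)

/-- one step of the Costa-Pereira inequality -/
theorem psi_rpow_le {x a : ℝ} (hx : 0 < x) :
    Chebyshev.psi (x ^ a) ≤ 1.387 * x ^ a + 5.387 * (x ^ (a * (2 : ℝ)⁻¹) + x ^ (a * (3 : ℝ)⁻¹)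
      + x ^ (a * (5 : ℝ)⁻¹)) := by
  have h := Chebyshev.psi_sub_theta_le_psi_add_psi_add_psi (x ^ a)
  have h1 := theta_le_trivial (y := x ^ a) (by positivity)
  rw [← Real.rpow_mul hx.le, ← Real.rpow_mul hx.le, ← Real.rpow_mul hx.le] at h
  have h2 := psi_le_trivial (y := x ^ (a * (2 : ℝ)⁻¹)) (by positivity)
  have h3 := psi_le_trivial (y := x ^ (a * (3 : ℝ)⁻¹)) (by positivity)
  have h5 := psi_le_trivial (y := x ^ (a * (5 : ℝ)⁻¹)) (by positivity)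
  linarith

/-- `x ^ a ≤ c √x` if `a = i / m`, `(1 / c) ^ (2 m) ≤ 25000 ^ (m - 2 i)` -/
theorem rpow_le_mul_sqrt {x a c : ℝ} (hx : 25000 ≤ x) (m i : ℕ) (hm : m ≠ 0) (hi : 2 * i ≤ m)
    (ha : a = i / m) (hc : 0 < c) (h : 1 ≤ 25000 ^ (m - 2 * i) * c ^ (2 * m)) :
    x ^ a ≤ c * √x := by
  have hx0 : (0 : ℝ) < x := by linarith
  have h1 : (x ^ a) ^ (2 * m) ≤ (c * √x) ^ (2 * m) := by
    have e1 : (x ^ a) ^ (2 * m) = x ^ (2 * i) := by
      rw [← Real.rpow_natCast, ← Real.rpow_mul hx0.le, ha, ← Real.rpow_natCast]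
      congr 1
      have : (m : ℝ) ≠ 0 := by exact_mod_cast hm
      push_cast
      field_simp
    have e2 : (c * √x) ^ (2 * m) = c ^ (2 * m) * x ^ m := by
      rw [mul_pow, pow_mul (√x), Real.sq_sqrt hx0.le]
    rw [e1, e2]
    have e3 : x ^ m = x ^ (m - 2 * i) * x ^ (2 * i) := by
      rw [← pow_add]
      congr 1
      omega
    rw [e3]
    have h4 : (25000 : ℝ) ^ (m - 2 * i) ≤ x ^ (m - 2 * i) :=
      pow_le_pow_left₀ (by norm_num) hx _
    have h5 : 1 ≤ c ^ (2 * m) * x ^ (m - 2 * i) := by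
      calc (1 : ℝ) ≤ 25000 ^ (m - 2 * i) * c ^ (2 * m) := h
        _ ≤ x ^ (m - 2 * i) * c ^ (2 * m) := mul_le_mul_of_nonneg_right h4 (by positivity)
        _ = _ := by ring
    have h6 : 0 ≤ x ^ (2 * i) := by positivity
    nlinarith
  exact le_of_pow_le_pow_left₀ (by omega) (by positivity) h1

theorem pst : PstStatement := by
  intro n hn
  have hx : (25000 : ℝ) ≤ (n : ℝ) := by exact_mod_cast hn
  set x : ℝ := (n : ℝ) with hxd
  have hx0 : (0 : ℝ) < x := by linarith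
  have h := Chebyshev.psi_sub_theta_le_psi_add_psi_add_psi x
  have h2 := psi_rpow_le (a := (2 : ℝ)⁻¹) hx0
  have h3 := psi_rpow_le (a := (3 : ℝ)⁻¹) hx0
  have h5 := psi_le_trivial (y := x ^ (5 : ℝ)⁻¹) (by positivity)
  have e2 : x ^ (2 : ℝ)⁻¹ = √x := by
    rw [Real.sqrt_eq_rpow]
    norm_num
  have c4 := rpow_le_mul_sqrt (a := (2 : ℝ)⁻¹ * (2 : ℝ)⁻¹) (c := 0.08) hx 4 1 (by norm_num)
    (by norm_num) (by norm_num) (by norm_num) (by norm_num)
  have c6 := rpow_le_mul_sqrt (a := (2 : ℝ)⁻¹ * (3 : ℝ)⁻¹) (c := 0.035) hx 6 1 (by norm_num)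
    (by norm_num) (by norm_num) (by norm_num) (by norm_num)
  have c10 := rpow_le_mul_sqrt (a := (2 : ℝ)⁻¹ * (5 : ℝ)⁻¹) (c := 0.018) hx 10 1 (by norm_num)
    (by norm_num) (by norm_num) (by norm_num) (by norm_num)
  have c3 := rpow_le_mul_sqrt (a := (3 : ℝ)⁻¹) (c := 0.19) hx 3 1 (by norm_num)
    (by norm_num) (by norm_num) (by norm_num) (by norm_num)
  have c6' := rpow_le_mul_sqrt (a := (3 : ℝ)⁻¹ * (2 : ℝ)⁻¹) (c := 0.035) hx 6 1 (by norm_num)
    (by norm_num) (by norm_num) (by norm_num) (by norm_num)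
  have c9 := rpow_le_mul_sqrt (a := (3 : ℝ)⁻¹ * (3 : ℝ)⁻¹) (c := 0.02) hx 9 1 (by norm_num)
    (by norm_num) (by norm_num) (by norm_num) (by norm_num)
  have c15 := rpow_le_mul_sqrt (a := (3 : ℝ)⁻¹ * (5 : ℝ)⁻¹) (c := 0.013) hx 15 1 (by norm_num)
    (by norm_num) (by norm_num) (by norm_num) (by norm_num)
  have c5 := rpow_le_mul_sqrt (a := (5 : ℝ)⁻¹) (c := 0.049) hx 5 1 (by norm_num)
    (by norm_num) (by norm_num) (by norm_num) (by norm_num)
  have hs : 0 ≤ √x := Real.sqrt_nonneg x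
  rw [e2] at h2 h
  linarith

end Pool.Agent.Lib.MP_ff3579_an.X.H63
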